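import Pool.Agent.TH928.RT.Main2

set_option autoImplicit false

/-!
# The tile method does not produce isospectral partners of convex domains

All known pairs of isospectral plane domains that are not congruent are produced by the method of
Sunada, Buser, and Buser, Conway, Doyle and Semmler: both domains are tiled by `N` mirror images of
one polygon, and an invertible matrix `M` transplants the functions on one of them (given by their
restrictions to the tiles) to functions on the other one, respecting all the crossings of sides and
the boundary conditions.  Here it is shown that no convex domain is obtained in this way together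
with a domain that is not congruent to it.
-/

namespace Pool.Agent.Results.MP_5b0138_an.ConvexReflectionTilings

open Pool.Agent.TH928.RT Pool.Agent.W780.PG
open scoped Real

theorem result {n : ℕ} (o : Fin (n + 3) → ℂ) (ho : IsConvexPolygon o) {N : ℕ} {Ω Ω' : Set ℂ}
    (hconv : Convex ℝ Ω) (S : ReflectionTiling o N Ω) (S' : ReflectionTiling o N Ω')
    (ε : ℂ) (hε : ε = 1 ∨ ε = -1) (M : Matrix (Fin N) (Fin N) ℂ) (hM : IsUnit M)
    (hMS : ∀ e, S'.crossing ε e * M = M * S.crossing ε e)
    (hT : (∀ x l, S.g x (o l) ∉ Ω) ∨ ((¬ ∀ l, ang o l = π / 2) ∧
      (¬ (n = 0 ∧ ∃ l, ang o l = π / 2)) ∧ ¬ ∀ l, ang o l = π / 3)) :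
    ∃ ψ : ℂ ≃ᵢ ℂ, ψ '' Ω' = Ω :=
  main2 ho hconv S S' hε hM hMS hT

end Pool.Agent.Results.MP_5b0138_an.ConvexReflectionTilings
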