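import Pool.Agent.TH613.TP.Main

set_option autoImplicit false

/-!
# Convex polygons with incommensurable angles and transplantation

Let `P` be a convex polygon with at most one angle which is a rational multiple of `π`, and suppose
that any two different values of its angles have an irrational ratio (equal angles are allowed). If
`Q` is a convex polygon and there are injective transplantations from `P` to `Q` and from `Q` to `P`
which respect the Dirichlet condition, then `P` and `Q` are congruent.
-/

namespace Pool.Agent.Results.MP_5b0138_an.TransplantableConvexPolygons

open Pool.Agent.W780 Pool.Agent.W780.PG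

open scoped Real

theorem result {n m : ℕ} {p : Fin (n + 3) → ℂ} {q : Fin (m + 3) → ℂ}
    (hp : IsConvexPolygon p) (hq : IsConvexPolygon q)
    (rational : ∀ i i', ¬ Irrational (ang p i / π) → ¬ Irrational (ang p i' / π) → i = i')
    (ratio : ∀ i i', ang p i ≠ ang p i' → Irrational (ang p i / ang p i'))
    (U : TR.Transplantation (region p) (region q)) (V : TR.Transplantation (region q) (region p))
    (hU : U.RespectsDirichlet) (hV : V.RespectsDirichlet) (iU : IsInjective U)
    (iV : IsInjective V) : ∃ ψ : ℂ ≃ᵢ ℂ, ψ '' region q = region p :=
  Pool.Agent.TH613.TP.congr_of_incomm hp hq rational ratio U V hU hV iU iV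

end Pool.Agent.Results.MP_5b0138_an.TransplantableConvexPolygons
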