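import Pool.Agent.TH613.TP.Main

set_option autoImplicit false

/-!
# Triangles and transplantation

Let `P` be a triangle with at most one angle of the form `π / k`. If `Q` is a convex polygon, with
any number of vertices, and there are injective transplantations from `P` to `Q` and from `Q` to `P`
which respect the Dirichlet condition, then `Q` is congruent to `P`.
-/

namespace Pool.Agent.Results.MP_5b0138_an.TransplantableTriangles

open Pool.Agent.W780 Pool.Agent.W780.PG

open scoped Real

theorem result {m : ℕ} {p : Fin (0 + 3) → ℂ} {q : Fin (m + 3) → ℂ}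
    (hp : IsConvexPolygon p) (hq : IsConvexPolygon q)
    (special : ∀ i i' : Fin (0 + 3), ∀ k k' : ℕ, (k : ℝ) * ang p i = π →
      (k' : ℝ) * ang p i' = π → i = i')
    (U : TR.Transplantation (region p) (region q)) (V : TR.Transplantation (region q) (region p))
    (hU : U.RespectsDirichlet) (hV : V.RespectsDirichlet) (iU : IsInjective U)
    (iV : IsInjective V) : ∃ ψ : ℂ ≃ᵢ ℂ, ψ '' region q = region p :=
  Pool.Agent.TH613.TP.congr_of_triangle hp hq
    (fun i i' ⟨k, _, hk⟩ ⟨k', _, hk'⟩ => special i i' k k' hk hk') U V hU hV iU iV

end Pool.Agent.Results.MP_5b0138_an.TransplantableTriangles
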