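import Pool.Agent.TH613.TP.Main

set_option autoImplicit false

/-!
# The angles are invariants of transplantation

If two convex polygons can be transplanted injectively into each other, respecting the Dirichlet
condition, then for every number `α` which is not of the form `π / k` they have the same number of
vertices with interior angle `α`.
-/

namespace Pool.Agent.Results.MP_5b0138_an.TransplantationAngles

open Pool.Agent.W780 Pool.Agent.W780.PG

open scoped Real

theorem result {n m : ℕ} {p : Fin (n + 3) → ℂ} {q : Fin (m + 3) → ℂ}
    (hp : IsConvexPolygon p) (hq : IsConvexPolygon q)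
    (U : TR.Transplantation (region p) (region q)) (V : TR.Transplantation (region q) (region p))
    (hU : U.RespectsDirichlet) (hV : V.RespectsDirichlet) (iU : IsInjective U)
    (iV : IsInjective V) (α : ℝ) (hα : ∀ k : ℕ, (k : ℝ) * α ≠ π) :
    Nat.card {i // ang p i = α} = Nat.card {j // ang q j = α} := by
  classical
  have h := Pool.Agent.TH613.TP.cnt_spec hp hq U V hU hV iU iV α
    (fun ⟨k, _, he⟩ => hα k he)
  rw [Nat.card_eq_fintype_card, Nat.card_eq_fintype_card, Fintype.card_subtype,
    Fintype.card_subtype]
  exact h

end Pool.Agent.Results.MP_5b0138_an.TransplantationAngles
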